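import Mathlib

set_option autoImplicit false

namespace Pool.Agent.Results.MP_845e99_co.ListCounterexample

/-- Vertices: two poles and 81 path vertices. -/
abbrev Vt := Bool ⊕ Fin 81

/-- Adjacency: each pole is joined to each path vertex; consecutive path vertices are joined. -/
def adj : Vt → Vt → Prop
  | Sum.inl _, Sum.inl _ => False
  | Sum.inl _, Sum.inr _ => True
  | Sum.inr _, Sum.inl _ => True
  | Sum.inr i, Sum.inr j => i.val + 1 = j.val ∨ j.val + 1 = i.val

theorem adj_symm : ∀ u v, adj u v → adj v u := by
  rintro (a | i) (b | j) h <;> simp only [adj] at h ⊢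
  exact h.symm

theorem adj_irrefl : ∀ u, ¬ adj u u := by
  rintro (a | i) h <;> simp only [adj] at h
  omega

/-- The graph. -/
def Gr : SimpleGraph Vt where
  Adj := adj
  symm := ⟨fun u v h => adj_symm u v h⟩
  loopless := ⟨fun u h => adj_irrefl u h⟩

/-- Straight line positions. -/
def px : Vt → ℝ
  | Sum.inl _ => 0
  | Sum.inr i => (i.val : ℝ)

def py : Vt → ℝ
  | Sum.inl true => 1
  | Sum.inl false => -1
  | Sum.inr _ => 0

def pos (v : Vt) : ℝ × ℝ := (px v, py v)

def seg (u v : Vt) (t : unitInterval) : ℝ × ℝ :=
  ((1 - (t : ℝ)) * px u + (t : ℝ) * px v, (1 - (t : ℝ)) * py u + (t : ℝ) * py v)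

theorem pos_injective : Function.Injective pos := by
  rintro (a | i) (b | j) h
  · simp only [pos, Prod.mk.injEq] at h
    obtain ⟨-, h2⟩ := h
    cases a <;> cases b <;> simp [py] at h2 ⊢ <;> norm_num at h2
  · simp only [pos, Prod.mk.injEq] at h
    obtain ⟨-, h2⟩ := h
    cases a <;> simp [py] at h2
  · simp only [pos, Prod.mk.injEq] at h
    obtain ⟨-, h2⟩ := h
    cases b <;> simp [py] at h2
  · simp only [pos, Prod.mk.injEq, px] at h
    obtain ⟨h1, -⟩ := h
    congr 1
    exact Fin.ext (by exact_mod_cast h1)

theorem seg_continuous (u v : Vt) : Continuous (seg u v) := by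
  unfold seg
  fun_prop

theorem seg_injective (u v : Vt) (h : u ≠ v) : Function.Injective (seg u v) := by
  intro t r htr
  simp only [seg, Prod.mk.injEq] at htr
  obtain ⟨h1, h2⟩ := htr
  have e1 : ((t : ℝ) - r) * (px v - px u) = 0 := by linarith
  have e2 : ((t : ℝ) - r) * (py v - py u) = 0 := by linarith
  by_cases htr : (t : ℝ) = r
  · exact Subtype.ext htr
  · exfalso
    have hne : (t : ℝ) - r ≠ 0 := sub_ne_zero.mpr htr
    have f1 : px v = px u := by
      rcases mul_eq_zero.mp e1 with h | h
      · exact absurd h hne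
      · linarith
    have f2 : py v = py u := by
      rcases mul_eq_zero.mp e2 with h | h
      · exact absurd h hne
      · linarith
    exact h (pos_injective (by simp [pos, f1, f2]))

theorem t_zero_or_one {t : unitInterval} (h : (t : ℝ) = 0 ∨ (t : ℝ) = 1) : t = 0 ∨ t = 1 := by
  rcases h with h | h
  · left; exact Subtype.ext h
  · right; exact Subtype.ext h

/-- A real in the unit interval with integer shift is an end point. -/
theorem unit_int_aux (t : ℝ) (ht0 : 0 ≤ t) (ht1 : t ≤ 1) (m n : ℕ) (h : (m : ℝ) = n + t) :
    t = 0 ∨ t = 1 := by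
  rcases Nat.lt_or_ge n m with hlt | hge
  · right
    have : (n : ℝ) + 1 ≤ m := by exact_mod_cast hlt
    linarith
  · left
    have : (m : ℝ) ≤ n := by exact_mod_cast hge
    linarith

theorem unit_int_aux2 (t r : ℝ) (ht0 : 0 ≤ t) (ht1 : t ≤ 1) (hr0 : 0 ≤ r) (hr1 : r ≤ 1)
    (m n : ℕ) (hmn : m ≠ n) (h : (m : ℝ) + r = n + t) :
    t = 0 ∨ t = 1 := by
  rcases Nat.lt_or_gt_of_ne hmn with hlt | hgt
  · left
    have : (m : ℝ) + 1 ≤ n := by exact_mod_cast hlt
    linarith
  · right
    have : (n : ℝ) + 1 ≤ m := by exact_mod_cast hgt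
    linarith

/-- Two distinct edges only meet at end points of the first. -/
theorem seg_cross (u v x y : Vt) (huv : adj u v) (hxy : adj x y) (hne : s(u, v) ≠ s(x, y))
    (t r : unitInterval) (h : seg u v t = seg x y r) : t = 0 ∨ t = 1 := by
  apply t_zero_or_one
  have ht0 := t.2.1
  have ht1 := t.2.2
  have hr0 := r.2.1
  have hr1 := r.2.2
  simp only [seg, Prod.mk.injEq] at h
  obtain ⟨h1, h2⟩ := h
  generalize (t : ℝ) = t at *
  generalize (r : ℝ) = r at *
  rcases u with (a | i) <;> rcases v with (b | j) <;> rcases x with (a' | i') <;>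
    rcases y with (b' | j') <;> simp only [adj] at huv hxy <;>
    simp only [px, mul_zero, zero_add, add_zero] at h1 h2
  -- inl a, inr j, inl a', inr j'
  · by_cases hj : (j : ℕ) = j'
    · have hjj : j = j' := Fin.ext hj
      cases a <;> cases a' <;> simp only [py] at h2
      · exact absurd (by rw [hjj]) hne
      · right; linarith
      · right; linarith
      · exact absurd (by rw [hjj]) hne
    · cases a <;> cases a' <;> simp only [py] at h2
      · have htr : t = r := by linarith
        subst htr
        left
        have : t * ((j : ℕ) - (j' : ℕ) : ℝ) = 0 := by linarith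
        rcases mul_eq_zero.mp this with h | h
        · exact h
        · exact absurd (by exact_mod_cast (sub_eq_zero.mp h)) hj
      · right; linarith
      · right; linarith
      · have htr : t = r := by linarith
        subst htr
        left
        have : t * ((j : ℕ) - (j' : ℕ) : ℝ) = 0 := by linarith
        rcases mul_eq_zero.mp this with h | h
        · exact h
        · exact absurd (by exact_mod_cast (sub_eq_zero.mp h)) hj
  -- inl a, inr j, inr i', inl b'
  · by_cases hj : (j : ℕ) = i'
    · have hjj : j = i' := Fin.ext hj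
      cases a <;> cases b' <;> simp only [py] at h2
      · exact absurd (by rw [hjj, Sym2.eq_swap]) hne
      · right; linarith
      · right; linarith
      · exact absurd (by rw [hjj, Sym2.eq_swap]) hne
    · cases a <;> cases b' <;> simp only [py] at h2
      · have htr : 1 - r = t := by linarith
        rw [htr] at h1
        left
        have : t * ((j : ℕ) - (i' : ℕ) : ℝ) = 0 := by linarith
        rcases mul_eq_zero.mp this with h | h
        · exact h
        · exact absurd (by exact_mod_cast (sub_eq_zero.mp h)) hj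
      · right; linarith
      · right; linarith
      · have htr : 1 - r = t := by linarith
        rw [htr] at h1
        left
        have : t * ((j : ℕ) - (i' : ℕ) : ℝ) = 0 := by linarith
        rcases mul_eq_zero.mp this with h | h
        · exact h
        · exact absurd (by exact_mod_cast (sub_eq_zero.mp h)) hj
  -- inl a, inr j, inr, inr
  · right
    cases a <;> simp only [py] at h2 <;> linarith
  -- inr i, inl b, inl a', inr j'
  · by_cases hj : (i : ℕ) = j'
    · have hjj : i = j' := Fin.ext hj
      cases b <;> cases a' <;> simp only [py] at h2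
      · exact absurd (by rw [hjj, Sym2.eq_swap]) hne
      · left; linarith
      · left; linarith
      · exact absurd (by rw [hjj, Sym2.eq_swap]) hne
    · cases b <;> cases a' <;> simp only [py] at h2
      · have htr : r = 1 - t := by linarith
        rw [htr] at h1
        right
        have : (1 - t) * ((i : ℕ) - (j' : ℕ) : ℝ) = 0 := by linarith
        rcases mul_eq_zero.mp this with h | h
        · linarith
        · exact absurd (by exact_mod_cast (sub_eq_zero.mp h)) hj
      · left; linarith
      · left; linarith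
      · have htr : r = 1 - t := by linarith
        rw [htr] at h1
        right
        have : (1 - t) * ((i : ℕ) - (j' : ℕ) : ℝ) = 0 := by linarith
        rcases mul_eq_zero.mp this with h | h
        · linarith
        · exact absurd (by exact_mod_cast (sub_eq_zero.mp h)) hj
  -- inr i, inl b, inr i', inl b'
  · by_cases hj : (i : ℕ) = i'
    · have hjj : i = i' := Fin.ext hj
      cases b <;> cases b' <;> simp only [py] at h2
      · exact absurd (by rw [hjj]) hne
      · left; linarith
      · left; linarith
      · exact absurd (by rw [hjj]) hne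
    · cases b <;> cases b' <;> simp only [py] at h2
      · have htr : t = r := by linarith
        subst htr
        right
        have : (1 - t) * ((i : ℕ) - (i' : ℕ) : ℝ) = 0 := by linarith
        rcases mul_eq_zero.mp this with h | h
        · linarith
        · exact absurd (by exact_mod_cast (sub_eq_zero.mp h)) hj
      · left; linarith
      · left; linarith
      · have htr : t = r := by linarith
        subst htr
        right
        have : (1 - t) * ((i : ℕ) - (i' : ℕ) : ℝ) = 0 := by linarith
        rcases mul_eq_zero.mp this with h | h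
        · linarith
        · exact absurd (by exact_mod_cast (sub_eq_zero.mp h)) hj
  -- inr i, inl b, inr, inr
  · left
    cases b <;> simp only [py] at h2 <;> linarith
  -- inr i, inr j, inl a', inr j'
  · have hr : r = 1 := by cases a' <;> simp only [py] at h2 <;> linarith
    subst hr
    rcases huv with hij | hij
    · have hc : ((j : ℕ) : ℝ) = (i : ℕ) + 1 := by exact_mod_cast hij.symm
      rw [hc] at h1
      exact unit_int_aux t ht0 ht1 j' i (by linarith)
    · have hc : ((i : ℕ) : ℝ) = (j : ℕ) + 1 := by exact_mod_cast hij.symm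
      rw [hc] at h1
      have := unit_int_aux (1 - t) (by linarith) (by linarith) j' j (by linarith)
      rcases this with h | h
      · right; linarith
      · left; linarith
  -- inr i, inr j, inr i', inl b'
  · have hr : r = 0 := by cases b' <;> simp only [py] at h2 <;> linarith
    subst hr
    rcases huv with hij | hij
    · have hc : ((j : ℕ) : ℝ) = (i : ℕ) + 1 := by exact_mod_cast hij.symm
      rw [hc] at h1
      exact unit_int_aux t ht0 ht1 i' i (by linarith)
    · have hc : ((i : ℕ) : ℝ) = (j : ℕ) + 1 := by exact_mod_cast hij.symm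
      rw [hc] at h1
      have := unit_int_aux (1 - t) (by linarith) (by linarith) i' j (by linarith)
      rcases this with h | h
      · right; linarith
      · left; linarith
  -- all inr
  · rcases huv with hij | hij <;> rcases hxy with hij' | hij'
    · have hc : ((j : ℕ) : ℝ) = (i : ℕ) + 1 := by exact_mod_cast hij.symm
      have hc' : ((j' : ℕ) : ℝ) = (i' : ℕ) + 1 := by exact_mod_cast hij'.symm
      rw [hc, hc'] at h1
      refine unit_int_aux2 t r ht0 ht1 hr0 hr1 i' i ?_ (by linarith)
      intro hh
      apply hne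
      have e1 : i' = i := Fin.ext hh
      have e2 : j' = j := Fin.ext (by omega)
      rw [e1, e2]
    · have hc : ((j : ℕ) : ℝ) = (i : ℕ) + 1 := by exact_mod_cast hij.symm
      have hc' : ((i' : ℕ) : ℝ) = (j' : ℕ) + 1 := by exact_mod_cast hij'.symm
      rw [hc, hc'] at h1
      refine unit_int_aux2 t (1 - r) ht0 ht1 (by linarith) (by linarith) j' i ?_ (by linarith)
      intro hh
      apply hne
      have e1 : j' = i := Fin.ext hh
      have e2 : i' = j := Fin.ext (by omega)
      rw [e1, e2, Sym2.eq_swap]
    · have hc : ((i : ℕ) : ℝ) = (j : ℕ) + 1 := by exact_mod_cast hij.symm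
      have hc' : ((j' : ℕ) : ℝ) = (i' : ℕ) + 1 := by exact_mod_cast hij'.symm
      rw [hc, hc'] at h1
      have := unit_int_aux2 (1 - t) r (by linarith) (by linarith) hr0 hr1 i' j ?_ (by linarith)
      · rcases this with h | h
        · right; linarith
        · left; linarith
      intro hh
      apply hne
      have e1 : i' = j := Fin.ext hh
      have e2 : j' = i := Fin.ext (by omega)
      rw [e1, e2, Sym2.eq_swap]
    · have hc : ((i : ℕ) : ℝ) = (j : ℕ) + 1 := by exact_mod_cast hij.symm
      have hc' : ((i' : ℕ) : ℝ) = (j' : ℕ) + 1 := by exact_mod_cast hij'.symm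
      rw [hc, hc'] at h1
      have := unit_int_aux2 (1 - t) (1 - r) (by linarith) (by linarith) (by linarith)
        (by linarith) j' j ?_ (by linarith)
      · rcases this with h | h
        · right; linarith
        · left; linarith
      intro hh
      apply hne
      have e1 : j' = j := Fin.ext hh
      have e2 : i' = i := Fin.ext (by omega)
      rw [e1, e2]

/-- A drawn edge passes through vertex positions only at its ends. -/
theorem seg_vertex (u v : Vt) (huv : adj u v) (w : Vt) (t : unitInterval)
    (h : seg u v t = pos w) : t = 0 ∨ t = 1 := by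
  apply t_zero_or_one
  have ht0 := t.2.1
  have ht1 := t.2.2
  simp only [seg, pos, Prod.mk.injEq] at h
  obtain ⟨h1, h2⟩ := h
  generalize (t : ℝ) = t at *
  rcases u with (a | i) <;> rcases v with (b | j) <;> rcases w with (c | k) <;>
    simp only [adj] at huv <;>
    simp only [px, mul_zero, zero_add, add_zero] at h1 h2
  · left
    cases a <;> cases c <;> simp only [py] at h2 <;> linarith
  · right
    cases a <;> simp only [py] at h2 <;> linarith
  · right
    cases b <;> cases c <;> simp only [py] at h2 <;> linarith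
  · left
    cases b <;> simp only [py] at h2 <;> linarith
  · exfalso
    cases c <;> simp [py] at h2
  · rcases huv with hij | hij
    · have hc : ((j : ℕ) : ℝ) = (i : ℕ) + 1 := by exact_mod_cast hij.symm
      rw [hc] at h1
      exact unit_int_aux t ht0 ht1 k i (by linarith)
    · have hc : ((i : ℕ) : ℝ) = (j : ℕ) + 1 := by exact_mod_cast hij.symm
      rw [hc] at h1
      have := unit_int_aux (1 - t) (by linarith) (by linarith) k j (by linarith)
      rcases this with h | h
      · right; linarith
      · left; linarith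

theorem planar :
    (∃ (p : Vt → ℝ × ℝ) (γ : Vt → Vt → unitInterval → ℝ × ℝ),
      Function.Injective p ∧
      (∀ u v, Gr.Adj u v →
        Continuous (γ u v) ∧ Function.Injective (γ u v) ∧
        γ u v 0 = p u ∧ γ u v 1 = p v ∧
        (∀ w t, γ u v t = p w → t = 0 ∨ t = 1)) ∧
      (∀ u v x y, Gr.Adj u v → Gr.Adj x y → s(u, v) ≠ s(x, y) →
        ∀ t r, γ u v t = γ x y r → t = 0 ∨ t = 1)) := by
  refine ⟨pos, seg, pos_injective, ?_, ?_⟩
  · intro u v huv
    refine ⟨seg_continuous u v, seg_injective u v ?_, ?_, ?_, ?_⟩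
    · rintro rfl
      exact adj_irrefl _ huv
    · simp [seg, pos]
    · simp [seg, pos]
    · intro w t h
      exact seg_vertex u v huv w t h
  · intro u v x y huv hxy hne t r h
    exact seg_cross u v x y huv hxy hne t r h

theorem colorable : Gr.Colorable 3 := by
  refine ⟨SimpleGraph.Coloring.mk (fun v => match v with
    | Sum.inl _ => (0 : Fin 3)
    | Sum.inr i => if i.val % 2 = 0 then 1 else 2) ?_⟩
  rintro (a | i) (b | j) h
  · exact absurd h (by simp [Gr, adj])
  · simp only
    split_ifs <;> decide
  · simp only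
    split_ifs <;> decide
  · have h' : i.val + 1 = j.val ∨ j.val + 1 = i.val := h
    simp only
    by_cases h1 : i.val % 2 = 0 <;> by_cases h2 : j.val % 2 = 0
    · omega
    · simp [h1, h2]
    · simp [h1, h2]
    · omega

/-- The lists: the poles get `{0,1,2}` and `{3,4,5}`; the path vertex `i` gets
`{i / 27, 3 + (i / 9) % 3, 6}`. -/
def lst : Vt → Finset ℕ
  | Sum.inl true => {0, 1, 2}
  | Sum.inl false => {3, 4, 5}
  | Sum.inr i => {i.val / 27, 3 + (i.val / 9) % 3, 6}

theorem lst_card (v : Vt) : (lst v).card = 3 := by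
  rcases v with ((_ | _) | i)
  · rfl
  · rfl
  · have h : i.val < 81 := i.isLt
    simp only [lst]
    rw [Finset.card_insert_of_notMem, Finset.card_insert_of_notMem, Finset.card_singleton]
    · simp only [Finset.mem_singleton]; omega
    · simp only [Finset.mem_insert, Finset.mem_singleton]; omega

/-- Every colouring from the lists has a vertex with two neighbours of its own colour. -/
theorem bad (φ : Vt → ℕ) (hL : ∀ v, φ v ∈ lst v) :
    ∃ v u w, u ≠ w ∧ Gr.Adj v u ∧ Gr.Adj v w ∧ φ u = φ v ∧ φ w = φ v := by
  by_contra hcon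
  have hφ : ∀ v u w, Gr.Adj v u → φ u = φ v → Gr.Adj v w → φ w = φ v → u = w := by
    intro v u w h1 h2 h3 h4
    by_contra hne
    exact hcon ⟨v, u, w, hne, h1, h3, h2, h4⟩
  have ha := hL (Sum.inl true)
  have hb := hL (Sum.inl false)
  simp only [lst, Finset.mem_insert, Finset.mem_singleton] at ha hb
  obtain ⟨a, haa⟩ : ∃ a, a = φ (Sum.inl true) := ⟨_, rfl⟩
  obtain ⟨b, hbb⟩ : ∃ b, 3 + b = φ (Sum.inl false) := ⟨φ (Sum.inl false) - 3, by omega⟩
  have ha3 : a < 3 := by omega
  have hb3 : b < 3 := by omega
  have key : ∀ r : ℕ, r < 3 → ∃ i : Fin 81, i.val / 3 = 9 * a + 3 * b + r ∧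
      (φ (Sum.inr i) = a ∨ φ (Sum.inr i) = 3 + b) := by
    intro r hr
    by_contra hc
    push Not at hc
    have h3 : ∀ i : Fin 81, i.val / 3 = 9 * a + 3 * b + r → φ (Sum.inr i) = 6 := by
      intro i hi
      obtain ⟨h0, h1⟩ := hc i hi
      have := hL (Sum.inr i)
      simp only [lst, Finset.mem_insert, Finset.mem_singleton] at this
      omega
    have e0 := h3 ⟨3 * (9 * a + 3 * b + r), by omega⟩ (by simp only; omega)
    have e1 := h3 ⟨3 * (9 * a + 3 * b + r) + 1, by omega⟩ (by simp only; omega)
    have e2 := h3 ⟨3 * (9 * a + 3 * b + r) + 2, by omega⟩ (by simp only; omega)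
    have := hφ (Sum.inr ⟨3 * (9 * a + 3 * b + r) + 1, by omega⟩)
      (Sum.inr ⟨3 * (9 * a + 3 * b + r), by omega⟩)
      (Sum.inr ⟨3 * (9 * a + 3 * b + r) + 2, by omega⟩)
      (Or.inr rfl) (by rw [e0, e1]) (Or.inl rfl) (by rw [e2, e1])
    simp only [Sum.inr.injEq, Fin.mk.injEq] at this
    omega
  have uniq0 : ∀ i j : Fin 81, φ (Sum.inr i) = a → φ (Sum.inr j) = a → i = j := by
    intro i j hi0 hj0
    have := hφ (Sum.inl true) (Sum.inr i) (Sum.inr j) trivial (by rw [hi0, haa]) trivial
      (by rw [hj0, haa])
    exact Sum.inr.inj this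
  have uniq1 : ∀ i j : Fin 81, φ (Sum.inr i) = 3 + b → φ (Sum.inr j) = 3 + b → i = j := by
    intro i j hi0 hj0
    have := hφ (Sum.inl false) (Sum.inr i) (Sum.inr j) trivial (by rw [hi0, hbb]) trivial
      (by rw [hj0, hbb])
    exact Sum.inr.inj this
  obtain ⟨i0, hi0, c0⟩ := key 0 (by norm_num)
  obtain ⟨i1, hi1, c1⟩ := key 1 (by norm_num)
  obtain ⟨i2, hi2, c2⟩ := key 2 (by norm_num)
  have n01 : i0 ≠ i1 := by rintro rfl; omega
  have n02 : i0 ≠ i2 := by rintro rfl; omega
  have n12 : i1 ≠ i2 := by rintro rfl; omega
  rcases c0 with c0 | c0 <;> rcases c1 with c1 | c1 <;> rcases c2 with c2 | c2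
  · exact n01 (uniq0 _ _ c0 c1)
  · exact n01 (uniq0 _ _ c0 c1)
  · exact n02 (uniq0 _ _ c0 c2)
  · exact n12 (uniq1 _ _ c1 c2)
  · exact n12 (uniq0 _ _ c1 c2)
  · exact n02 (uniq1 _ _ c0 c2)
  · exact n01 (uniq1 _ _ c0 c1)
  · exact n01 (uniq1 _ _ c0 c1)

/-- A finite planar 3-colourable graph with lists of size 3 such that every colouring from the
lists has a vertex with at least two neighbours of its own colour. -/
theorem result :
    ∃ (V : Type) (_ : Fintype V) (G : SimpleGraph V),
      (∃ (p : V → ℝ × ℝ) (γ : V → V → unitInterval → ℝ × ℝ),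
        Function.Injective p ∧
        (∀ u v, G.Adj u v →
          Continuous (γ u v) ∧ Function.Injective (γ u v) ∧
          γ u v 0 = p u ∧ γ u v 1 = p v ∧
          (∀ w t, γ u v t = p w → t = 0 ∨ t = 1)) ∧
        (∀ u v x y, G.Adj u v → G.Adj x y → s(u, v) ≠ s(x, y) →
          ∀ t r, γ u v t = γ x y r → t = 0 ∨ t = 1)) ∧
      G.Colorable 3 ∧
      ∃ L : V → Finset ℕ, (∀ v, (L v).card = 3) ∧
        ∀ φ : V → ℕ, (∀ v, φ v ∈ L v) →
          ∃ v u w, u ≠ w ∧ G.Adj v u ∧ G.Adj v w ∧ φ u = φ v ∧ φ w = φ v :=
  ⟨Vt, inferInstance, Gr, planar, colorable, lst, lst_card, bad⟩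

end Pool.Agent.Results.MP_845e99_co.ListCounterexample
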